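import Pool.Agent.Helper22.MI.Stmts0

set_option autoImplicit false

namespace Pool.Agent.Helper22.MI

open Finset

theorem step_num (k j m : ℕ) (ε : ℝ) (hε : 0 < ε) (hjk : j ≤ k)
    (h : ((k : ℝ) + 1) ^ 5 ≤ 8 * ε ^ 2 * m) :
    (j : ℝ) < 8 * (ε / ((k : ℝ) + 1) ^ 2) ^ 2 * m := by
  have hk : (0 : ℝ) < (k : ℝ) + 1 := by positivity
  have hj : (j : ℝ) ≤ k := by exact_mod_cast hjk
  have e : 8 * (ε / ((k : ℝ) + 1) ^ 2) ^ 2 * m = 8 * ε ^ 2 * m / ((k : ℝ) + 1) ^ 4 := by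
    field_simp
  rw [e, lt_div_iff₀ (by positivity)]
  calc (j : ℝ) * ((k : ℝ) + 1) ^ 4 ≤ k * ((k : ℝ) + 1) ^ 4 :=
        mul_le_mul_of_nonneg_right hj (by positivity)
    _ < ((k : ℝ) + 1) * ((k : ℝ) + 1) ^ 4 := mul_lt_mul_of_pos_right (by linarith) (by positivity)
    _ = ((k : ℝ) + 1) ^ 5 := by ring
    _ ≤ _ := h

theorem step_lam (k j : ℕ) (ε a t : ℝ) (hε : 0 < ε) (hjk : j ≤ k)
    (h : |a - (t + ε / ((j : ℝ) + 1))| < ε / ((k : ℝ) + 1) ^ 2) :
    0 ≤ (a - t) / ε ∧ (a - t) / ε ≤ 1 / ((j : ℝ) + 1) + 1 / ((j : ℝ) + 1) ^ 2 := by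
  have hj0 : (0 : ℝ) < (j : ℝ) + 1 := by positivity
  have hk0 : (0 : ℝ) < (k : ℝ) + 1 := by positivity
  have hj : (j : ℝ) + 1 ≤ (k : ℝ) + 1 := by
    have : (j : ℝ) ≤ k := by exact_mod_cast hjk
    linarith
  have h1 : ε / ((k : ℝ) + 1) ^ 2 ≤ ε / ((j : ℝ) + 1) ^ 2 := by
    apply div_le_div_of_nonneg_left hε.le (by positivity)
    exact pow_le_pow_left₀ hj0.le hj 2
  have h2 : ε / ((j : ℝ) + 1) ^ 2 ≤ ε / ((j : ℝ) + 1) := by
    apply div_le_div_of_nonneg_left hε.le hj0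
    have : (1 : ℝ) ≤ (j : ℝ) + 1 := by
      have : (0 : ℝ) ≤ j := Nat.cast_nonneg j
      linarith
    nlinarith
  have h3 := abs_lt.1 h
  constructor
  · apply div_nonneg _ hε.le
    linarith [h3.1]
  · rw [div_le_iff₀ hε]
    have e : (1 / ((j : ℝ) + 1) + 1 / ((j : ℝ) + 1) ^ 2) * ε =
        ε / ((j : ℝ) + 1) + ε / ((j : ℝ) + 1) ^ 2 := by ring
    rw [e]
    linarith [h3.2]

theorem step_sum (j : ℕ) (b : Fin j → ℝ)
    (h : ∀ l, b l ≤ 1 / ((j : ℝ) + 1) + 1 / ((j : ℝ) + 1) ^ 2) : ∑ l, b l ≤ 1 := by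
  have hj0 : (0 : ℝ) < (j : ℝ) + 1 := by positivity
  calc ∑ l, b l ≤ ∑ _l : Fin j, (1 / ((j : ℝ) + 1) + 1 / ((j : ℝ) + 1) ^ 2) :=
        Finset.sum_le_sum fun l _ => h l
    _ = j * (1 / ((j : ℝ) + 1) + 1 / ((j : ℝ) + 1) ^ 2) := by
        rw [Finset.sum_const, Finset.card_univ, Fintype.card_fin, nsmul_eq_mul]
    _ ≤ 1 := by
        have e : (j : ℝ) * (1 / ((j : ℝ) + 1) + 1 / ((j : ℝ) + 1) ^ 2) =
            (j * (j + 2)) / ((j : ℝ) + 1) ^ 2 := by
          field_simp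
          ring
        rw [e, div_le_one (by positivity)]
        nlinarith

theorem step_dual (j k : ℕ) (v : Fin j → Fin k → ℝ) (hv : LinearIndependent ℝ v) (h : Fin j → ℝ) :
    ∃ g : (Fin k → ℝ) →ₗ[ℝ] ℝ, ∀ l, g (v l) = h l := by
  obtain ⟨g, hg⟩ := LinearMap.exists_extend ((Module.Basis.span hv).constr ℝ h)
  refine ⟨g, fun l => ?_⟩
  have h1 := LinearMap.congr_fun hg (Module.Basis.span hv l)
  rw [Module.Basis.constr_basis, LinearMap.comp_apply, Submodule.subtype_apply,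
    Module.Basis.span_apply] at h1
  exact h1

theorem st_STEP (hAUE : ST_AUE) (hALT : ST_ALT) : ST_STEP := by
  classical
  intro ι _ k m ε z T hT hε hε1 hkm
  obtain ⟨s0, hs0⟩ := hT
  obtain ⟨v, hv⟩ : ∃ v : {σ // σ ∈ T} → Fin k → ℝ, v = fun a i => (z a.1 i : ℝ) - z s0 i :=
    ⟨_, rfl⟩
  obtain ⟨j, s, hjk, hLI, hx⟩ := hAUE {σ // σ ∈ T} k v
  choose x hx1 hx2 using hx
  obtain ⟨w, hw⟩ : ∃ w : Fin j → Fin k → ℤ, w = fun l i => z (s l).1 i - z s0 i := ⟨_, rfl⟩
  have hwv : (fun (l : Fin j) (i : Fin k) => (w l i : ℝ)) = fun l => v (s l) := by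
    funext l i
    rw [hw, hv]
    push_cast
    rfl
  have hLI' : LinearIndependent ℝ (fun (l : Fin j) (i : Fin k) => (w l i : ℝ)) := by
    rw [hwv]; exact hLI
  have hk0 : (0 : ℝ) < (k : ℝ) + 1 := by positivity
  obtain ⟨X, hX⟩ : ∃ X : ι → Fin j → ℝ, X = fun σ => if h : σ ∈ T then x ⟨σ, h⟩ else 0 := ⟨_, rfl⟩
  have hX1 : ∀ σ ∈ T, ∀ l, |X σ l| ≤ 1 := by
    intro σ hσ l
    rw [hX]
    simp only
    rw [dif_pos hσ]
    exact hx1 _ _
  have hX2 : ∀ σ ∈ T, ∀ i, (z σ i : ℝ) - z s0 i = ∑ l, X σ l * w l i := by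
    intro σ hσ i
    have h1 := hx2 ⟨σ, hσ⟩ i
    rw [hX]
    simp only
    rw [dif_pos hσ]
    have h2 : v ⟨σ, hσ⟩ i = (z σ i : ℝ) - z s0 i := by rw [hv]
    rw [← h2, h1]
    refine Finset.sum_congr rfl fun l _ => ?_
    have h3 : (w l i : ℝ) = v (s l) i := congrFun (congrFun hwv l) i
    rw [h3]
  rcases hALT j k m (ε / ((k : ℝ) + 1) ^ 2) w hLI' (by positivity)
    (step_num k j m ε hε hjk hkm) with h1 | ⟨h, hh0, hhm, hha⟩
  · left
    intro μ hμ
    obtain ⟨π, hπ⟩ : ∃ π : Fin j → ℝ, π = fun l => ∑ σ ∈ T, μ σ * X σ l := ⟨_, rfl⟩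
    have hP : ∀ i, ∑ σ ∈ T, μ σ * z σ i = z s0 i + ∑ l, π l * w l i := by
      intro i
      have e1 : ∑ σ ∈ T, μ σ * z σ i = ∑ σ ∈ T, (μ σ * z s0 i + ∑ l, μ σ * (X σ l * w l i)) := by
        refine Finset.sum_congr rfl fun σ hσ => ?_
        rw [← Finset.mul_sum, ← hX2 σ hσ i]
        ring
      rw [e1, Finset.sum_add_distrib, ← Finset.sum_mul, hμ, one_mul, Finset.sum_comm, hπ]
      congr 1
      refine Finset.sum_congr rfl fun l _ => ?_
      rw [Finset.sum_mul]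
      exact Finset.sum_congr rfl fun σ _ => by ring
    obtain ⟨z', x', hz', hx'⟩ := h1 (fun l => (1 - ε) * π l + ε / ((j : ℝ) + 1))
    obtain ⟨b, hb⟩ : ∃ b : Fin j → ℝ, b = fun l => (x' l - (1 - ε) * π l) / ε := ⟨_, rfl⟩
    have hb1 : ∀ l, 0 ≤ b l ∧ b l ≤ 1 / ((j : ℝ) + 1) + 1 / ((j : ℝ) + 1) ^ 2 := by
      intro l
      rw [hb]
      exact step_lam k j ε (x' l) ((1 - ε) * π l) hε hjk (hx' l)
    have hbs : ∑ l, b l ≤ 1 := step_sum j b fun l => (hb1 l).2
    have hεb : ∀ l, ε * b l = x' l - (1 - ε) * π l := by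
      intro l
      rw [hb]
      simp only
      field_simp
    obtain ⟨lam, hlam⟩ : ∃ lam : ι → ℝ, lam = fun σ => ∑ l, (if (s l).1 = σ then b l else 0) +
      (if s0 = σ then 1 - ∑ l, b l else 0) := ⟨_, rfl⟩
    have hF : ∀ F : ι → ℝ, ∑ σ ∈ T, lam σ * F σ = ∑ l, b l * F (s l).1 + (1 - ∑ l, b l) * F s0 := by
      intro F
      rw [hlam]
      simp only [add_mul, Finset.sum_mul, ite_mul, zero_mul]
      rw [Finset.sum_add_distrib, Finset.sum_comm]
      congr 1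
      · refine Finset.sum_congr rfl fun l _ => ?_
        rw [Finset.sum_ite_eq, if_pos (s l).2]
      · rw [Finset.sum_ite_eq, if_pos hs0]
    refine ⟨lam, fun σ _ => ?_, ?_, fun i => ⟨z s0 i + z' i, ?_⟩⟩
    · rw [hlam]
      simp only
      refine add_nonneg (Finset.sum_nonneg fun l _ => ?_) ?_
      · split_ifs
        · exact (hb1 l).1
        · exact le_rfl
      · split_ifs
        · linarith
        · exact le_rfl
    · have := hF (fun _ => 1)
      simp only [mul_one] at this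
      rw [this]
      ring
    · rw [hP i, hF (fun σ => (z σ i : ℝ))]
      have e1 : ∑ l, b l * (z (s l).1 i : ℝ) + (1 - ∑ l, b l) * (z s0 i : ℝ) =
          z s0 i + ∑ l, b l * w l i := by
        have e2 : ∑ l, b l * (w l i : ℝ) = ∑ l, b l * (z (s l).1 i : ℝ) - (∑ l, b l) * z s0 i := by
          rw [Finset.sum_mul, ← Finset.sum_sub_distrib]
          refine Finset.sum_congr rfl fun l _ => ?_
          rw [hw]
          push_cast
          ring
        rw [e2]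
        ring
      rw [e1]
      push_cast
      rw [hz' i]
      have e3 : ∑ l, x' l * (w l i : ℝ) = (1 - ε) * ∑ l, π l * (w l i : ℝ) +
          ε * ∑ l, b l * (w l i : ℝ) := by
        rw [Finset.mul_sum, Finset.mul_sum, ← Finset.sum_add_distrib]
        refine Finset.sum_congr rfl fun l _ => ?_
        have e4 : x' l = (1 - ε) * π l + ε * b l := by rw [hεb l]; ring
        rw [e4]
        ring
      rw [e3]
      ring
  · right
    obtain ⟨g, hg⟩ := step_dual j k _ hLI' (fun l => (h l : ℝ))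
    have hu : ∀ σ : ι, ∃ a : ℤ, σ ∈ T → ∑ l, (h l : ℝ) * X σ l = a := by
      intro σ
      by_cases hσ : σ ∈ T
      · obtain ⟨a, ha⟩ := hha (fun i => z σ i - z s0 i) (X σ) (fun i => by
          rw [← hX2 σ hσ i]; push_cast; rfl)
        exact ⟨a, fun _ => ha⟩
      · exact ⟨0, fun h' => absurd h' hσ⟩
    choose u hu using hu
    have hgu : ∀ σ ∈ T, (u σ : ℝ) = g (fun i => (z σ i : ℝ) - z s0 i) := by
      intro σ hσ
      rw [← hu σ hσ]
      have e1 : (fun i => (z σ i : ℝ) - z s0 i) = ∑ l, X σ l • (fun i => (w l i : ℝ)) := by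
        funext i
        rw [hX2 σ hσ i, Finset.sum_apply]
        rfl
      rw [e1, map_sum]
      refine Finset.sum_congr rfl fun l _ => ?_
      rw [map_smul, hg l, smul_eq_mul, mul_comm]
    refine ⟨u, fun i => g (fun i' => if i = i' then 1 else 0),
      -∑ i, g (fun i' => if i = i' then 1 else 0) * z s0 i, fun σ hσ => ?_, fun σ hσ => ?_, ?_⟩
    · have h2 : |(u σ : ℝ)| ≤ (k : ℝ) * m := by
        rw [← hu σ hσ]
        calc |∑ l, (h l : ℝ) * X σ l| ≤ ∑ l, |(h l : ℝ) * X σ l| := Finset.abs_sum_le_sum_abs _ _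
          _ ≤ ∑ _l : Fin j, (m : ℝ) := by
              refine Finset.sum_le_sum fun l _ => ?_
              rw [abs_mul]
              have h3 : |(h l : ℝ)| ≤ m := by exact_mod_cast hhm l
              calc |(h l : ℝ)| * |X σ l| ≤ m * 1 :=
                    mul_le_mul h3 (hX1 σ hσ l) (abs_nonneg _) (Nat.cast_nonneg m)
                _ = m := mul_one _
          _ = j * m := by rw [Finset.sum_const, Finset.card_univ, Fintype.card_fin, nsmul_eq_mul]
          _ ≤ k * m := by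
              have : (j : ℝ) ≤ k := by exact_mod_cast hjk
              exact mul_le_mul_of_nonneg_right this (Nat.cast_nonneg m)
      exact_mod_cast h2
    · rw [hgu σ hσ, LinearMap.pi_apply_eq_sum_univ g, ← sub_eq_add_neg, ← Finset.sum_sub_distrib]
      refine Finset.sum_congr rfl fun i _ => ?_
      rw [smul_eq_mul]
      ring
    · have h2 : ∃ l, h l ≠ 0 := by
        by_contra hcon
        push Not at hcon
        exact hh0 (funext hcon)
      obtain ⟨l, hl⟩ := h2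
      refine ⟨(s l).1, (s l).2, s0, hs0, fun heq => ?_⟩
      have h3 := hgu (s l).1 (s l).2
      have h4 := hgu s0 hs0
      have e1 : (fun i => (z (s l).1 i : ℝ) - z s0 i) = fun i => (w l i : ℝ) := by
        funext i
        rw [hw]
        push_cast
        rfl
      have e2 : (fun i => (z s0 i : ℝ) - z s0 i) = 0 := by
        funext i
        simp
      rw [e1, hg l] at h3
      rw [e2, map_zero] at h4
      rw [heq, h4] at h3
      exact hl (by exact_mod_cast h3.symm)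

end Pool.Agent.Helper22.MI
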